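import Mathlib
import Pool.Agent.Y201.LI.Stm3
import Pool.Agent.Y929.LI.Fa

/-! # Project LI: a point over a field of odd degree over `ℂ(z)` is not on the polar quadric of the
generic point `z` (S_LAM) -/

set_option autoImplicit false

namespace Pool.Agent.Y942.LI

open MvPolynomial Pool.Agent.TH314.PD IntermediateField Module Pool.Agent.Y201.LI
  Pool.Agent.Y929.LI

noncomputable section

/-- the coordinates of a generic point, multiplied by a transcendental element, are algebraically
independent -/
theorem algInd {N Ω : Type} [Field N] [Field Ω] [Algebra ℂ N] [Algebra ℂ Ω] [Algebra N Ω]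
    [IsScalarTower ℂ N Ω] {r : ℕ} (z : Fin r → N)
    (hz : ∀ (e : ℕ) (H : MvPolynomial (Fin r) ℂ), H.IsHomogeneous e → aeval z H = 0 → H = 0)
    (τ : Ω) (hτ : Transcendental N τ) :
    AlgebraicIndependent ℂ (fun i => τ * algebraMap N Ω (z i)) := by
  classical
  rw [algebraicIndependent_iff]
  intro p hp
  have h1 : ∀ k, aeval (fun i => τ * algebraMap N Ω (z i)) (homogeneousComponent k p) =
      τ ^ k * algebraMap N Ω (aeval z (homogeneousComponent k p)) := by
    intro k
    rw [aeval_smul_form (homogeneousComponent_isHomogeneous k p)]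
    congr 1
    exact (aeval_algebraMap_apply Ω z _)
  let P : Polynomial N := ∑ k ∈ Finset.range (p.totalDegree + 1),
    Polynomial.C (aeval z (homogeneousComponent k p)) * Polynomial.X ^ k
  have hP0 : Polynomial.aeval τ P = 0 := by
    rw [← hp]
    conv_rhs => rw [← sum_homogeneousComponent p]
    simp only [P, map_sum]
    refine Finset.sum_congr rfl fun k _ => ?_
    rw [h1, map_mul, Polynomial.aeval_C, map_pow, Polynomial.aeval_X, mul_comm]
  have hP : P = 0 := by
    by_contra hne
    exact hτ ⟨P, hne, hP0⟩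
  rw [← sum_homogeneousComponent p]
  refine Finset.sum_eq_zero fun k hk => ?_
  refine hz k _ (homogeneousComponent_isHomogeneous k p) ?_
  have h2 := congrArg (fun Q => Polynomial.coeff Q k) hP
  simp only [P, Polynomial.finset_sum_coeff, Polynomial.coeff_C_mul, Polynomial.coeff_X_pow,
    mul_ite, mul_one, mul_zero, Polynomial.coeff_zero] at h2
  rw [Finset.sum_ite_eq, if_pos hk] at h2
  exact h2

theorem lam_aux (h1 : S_ONE) (h2 : S_EXT) (h3 : S_BPF) (r d : ℕ) (F : MvPolynomial (Fin r) ℂ)
    (hF : F.IsHomogeneous d) (hsm : ∀ z : Fin r → ℂ, (∀ i, eval z (pderiv i F) = 0) → z = 0)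
    (N : Type) [Field N] [Algebra ℂ N] (z : Fin r → N)
    (hz : ∀ (e : ℕ) (H : MvPolynomial (Fin r) ℂ), H.IsHomogeneous e → aeval z H = 0 → H = 0)
    (y : Fin r → N) (hy : y ≠ 0) (hyz : ∑ i, z i * aeval y (pderiv i F) = 0)
    [FiniteDimensional (ratioField z) N] (Ω : Type) [Field Ω] [Algebra ℂ Ω] [Algebra N Ω]
    [IsScalarTower ℂ N Ω] (τ : Ω) (hτ : Transcendental N τ) (htop : adjoin N {τ} = ⊤) :
    d - 1 ∣ finrank (ratioField z) N := by
  classical
  obtain ⟨j0, hyj⟩ : ∃ j, y j ≠ 0 := by
    by_contra hcon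
    push Not at hcon
    exact hy (funext hcon)
  have hj0 : z j0 ≠ 0 := by
    intro h0
    have h4 := hz 1 (X j0) (isHomogeneous_X ℂ j0) (by rw [aeval_X]; exact h0)
    exact X_ne_zero j0 h4
  let z' : Fin r → N := fun i => z i / z j0
  have hz' : ∀ (e : ℕ) (H : MvPolynomial (Fin r) ℂ), H.IsHomogeneous e → aeval z' H = 0 → H = 0 :=
    fun e H hH h4 => hz e H hH ((aeval_div z hj0 hH).1 h4)
  let a : Fin r → Ω := fun i => τ * algebraMap N Ω (z' i)
  have hAI : AlgebraicIndependent ℂ a := algInd z' hz' τ hτ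
  have ha0 : a j0 = τ := by
    simp only [a, z', div_self hj0, map_one, mul_one]
  have hτ0 : τ ≠ 0 := by
    rintro rfl
    exact hτ (isAlgebraic_zero)
  have hτu : AlgebraicIndependent N (fun _ : Unit => τ) :=
    algebraicIndependent_unique_type_iff.2 hτ
  have hru : Set.range (fun _ : Unit => τ) = {τ} := Set.range_const
  have hch : CharZero (ratioField z) :=
    charZero_of_injective_algebraMap (algebraMap ℂ _).injective
  obtain ⟨hfd, hfr⟩ := h2 (ratioField z) N Ω Unit (fun _ => τ) hτu (by rw [hru]; exact htop)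
  -- the two subfields
  have hrange : (algebraMap (adjoin (ratioField z) (Set.range fun _ : Unit => τ)) Ω).range =
      (algebraMap (adjoin ℂ (Set.range a)) Ω).range := by
    rw [hru]
    ext w
    constructor
    · rintro ⟨b, rfl⟩
      have h4 : (adjoin (ratioField z) {τ}).toSubfield ≤ (adjoin ℂ (Set.range a)).toSubfield := by
        rw [adjoin_toSubfield, Subfield.closure_le]
        rintro x (⟨c, rfl⟩ | hx)
        · have h5 : ratioField z ≤
              (adjoin ℂ (Set.range a)).comap (IsScalarTower.toAlgHom ℂ N Ω) := by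
            unfold ratioField
            rw [IntermediateField.adjoin_le_iff]
            rintro _ ⟨i, j, rfl⟩
            show algebraMap N Ω (z i / z j) ∈ adjoin ℂ (Set.range a)
            have h6 : algebraMap N Ω (z i / z j) = a i / a j := by
              simp only [a, z']
              rw [mul_div_mul_left _ _ hτ0, ← map_div₀, div_div_div_cancel_right₀ hj0]
            rw [h6]
            exact div_mem (subset_adjoin ℂ _ ⟨i, rfl⟩) (subset_adjoin ℂ _ ⟨j, rfl⟩)
          exact h5 c.2
        · rw [Set.mem_singleton_iff] at hx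
          subst hx
          rw [← ha0]
          exact subset_adjoin ℂ _ ⟨j0, rfl⟩
      exact ⟨⟨_, h4 b.2⟩, rfl⟩
    · rintro ⟨b, rfl⟩
      have h4 : (adjoin ℂ (Set.range a)).toSubfield ≤ (adjoin (ratioField z) {τ}).toSubfield := by
        rw [adjoin_toSubfield, Subfield.closure_le]
        rintro x (⟨c, rfl⟩ | ⟨i, rfl⟩)
        · have h5 : algebraMap ℂ Ω c = algebraMap (ratioField z) Ω (algebraMap ℂ _ c) := by
            rw [IsScalarTower.algebraMap_apply ℂ N Ω]
            rfl
          rw [h5]
          exact (adjoin (ratioField z) {τ}).algebraMap_mem _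
        · have h5 : z' i ∈ ratioField z := subset_adjoin ℂ _ ⟨i, j0, rfl⟩
          have h6 : algebraMap N Ω (z' i) ∈ adjoin (ratioField z) {τ} :=
            (adjoin (ratioField z) {τ}).algebraMap_mem (⟨_, h5⟩ : ratioField z)
          exact mul_mem (mem_adjoin_simple_self _ τ) h6
      exact ⟨⟨_, h4 b.2⟩, rfl⟩
  obtain ⟨hfd2, hfr2⟩ := fin_of_range hrange
  rw [← hfr, ← hfr2]
  let a' : Fin r → adjoin ℂ (Set.range a) := fun i => ⟨a i, subset_adjoin ℂ _ ⟨i, rfl⟩⟩
  have hr1 : Subtype.val '' Set.range a' = Set.range a := by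
    rw [← Set.range_comp]
    rfl
  have htop2 : adjoin ℂ (Set.range a' ∪ Set.range (fun e : Empty =>
      (e.elim : adjoin ℂ (Set.range a)))) = ⊤ := by
    apply Pool.Agent.Y929.LI.adjoin_top
    have he : Set.range (fun e : Empty => (e.elim : adjoin ℂ (Set.range a))) = ∅ :=
      Set.range_eq_empty _
    rw [Set.image_union, hr1, he, Set.image_empty, Set.union_empty]
  have hAI2 : AlgebraicIndependent ℂ (Sum.elim a' (fun e : Empty =>
      (e.elim : adjoin ℂ (Set.range a)))) := by
    refine AlgebraicIndependent.of_comp (adjoin ℂ (Set.range a)).val ?_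
    have h4 := hAI.comp (Sum.elim id (fun e : Empty => e.elim) : Fin r ⊕ Empty → Fin r) (by
      rintro (i | i) (j | j) hij
      · exact congrArg _ hij
      · exact j.elim
      · exact i.elim
      · exact i.elim)
    convert h4 using 1
    funext i
    rcases i with i | i
    · rfl
    · exact i.elim
  have hφ : (algebraMap (adjoin ℂ (Set.range a)) Ω).comp (algebraMap ℂ _) = algebraMap ℂ Ω := rfl
  refine h1 ℂ r (d - 1) r ∅ (fun i => pderiv i F) (fun G hG => absurd hG (Set.notMem_empty G))
    (fun i => hF.pderiv) (h3 r F hsm d hF) Empty (adjoin ℂ (Set.range a)) Ω a'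
    (fun e : Empty => e.elim) hAI2 htop2 (fun i => algebraMap N Ω (y i)) ?_
    (fun G hG => absurd hG (Set.notMem_empty G)) ?_
  · intro h4
    exact hyj ((map_eq_zero _).1 (congrFun h4 j0))
  · rw [hφ]
    have h4 : ∀ i, algebraMap (adjoin ℂ (Set.range a)) Ω (a' i) *
        eval₂ (algebraMap ℂ Ω) (fun i => algebraMap N Ω (y i)) (pderiv i F) =
        τ / algebraMap N Ω (z j0) * algebraMap N Ω (z i * aeval y (pderiv i F)) := by
      intro i
      have h5 : eval₂ (algebraMap ℂ Ω) (fun i => algebraMap N Ω (y i)) (pderiv i F) =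
          algebraMap N Ω (aeval y (pderiv i F)) := aeval_algebraMap_apply Ω y _
      rw [h5]
      show (τ * algebraMap N Ω (z i / z j0)) * _ = _
      rw [map_div₀, map_mul]
      ring
    rw [Finset.sum_congr rfl fun i _ => h4 i, ← Finset.mul_sum, ← map_sum, hyz, map_zero, mul_zero]

/-- job LAM -/
theorem lam (h1 : S_ONE) (h2 : S_EXT) (h3 : S_BPF) : S_LAM := by
  intro r d F hF _ hsm N _ _ z hz y hy hyz
  by_cases hfd : FiniteDimensional (ratioField z) N
  · have _ : IsScalarTower ℂ N (RatFunc N) := IsScalarTower.of_algebraMap_eq fun _ => rfl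
    exact lam_aux h1 h2 h3 r d F hF hsm N z hz y hy hyz (RatFunc N) RatFunc.X
      RatFunc.transcendental_X RatFunc.adjoin_X
  · rw [finrank_of_not_finite hfd]
    exact dvd_zero _

end

end Pool.Agent.Y942.LI
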