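import Mathlib
import Pool.Agent.Y201.LI.Stm3
import Pool.Agent.Y201.C3.Tri
import Pool.Agent.Y929.LI.Fa
import Pool.Agent.Y270.C3.Base
import Pool.Agent.Helper273.Brg.P_springer

/-! # Project LI: Springer's theorem for the residual quadric of a linear subspace of a cubic
hypersurface (S_SEC, from S_LAM) -/

set_option autoImplicit false

namespace Pool.Agent.Y942.LI

open MvPolynomial Pool.Agent.TH314.PD IntermediateField Module Pool.Agent.Y201.LI
  Pool.Agent.Y929.LI Pool.Agent.Y201.C3

noncomputable section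

section quad

variable {r m : ℕ} {E : Type} [CommRing E] [Algebra ℂ E]

/-- the points `p` over `E` -/
def pe (E : Type) [CommRing E] [Algebra ℂ E] (p : Fin m → Fin r → ℂ) (a : Fin m) : Fin r → E :=
  fun i => algebraMap ℂ E (p a i)

/-- the residual quadric -/
def SS (T : Fin r → Fin r → Fin r → ℂ) (p : Fin m → Fin r → ℂ) (x : Fin r → E) (u : E)
    (c : Fin m → E) : E :=
  u ^ 2 * Bg T x x x + 3 * u * ∑ b, c b * Bg T x x (pe E p b) +
    3 * ∑ a, ∑ b, c a * c b * Bg T x (pe E p a) (pe E p b)

theorem Bg_v {T : Fin r → Fin r → Fin r → ℂ} (hT : SymG T) (p : Fin m → Fin r → ℂ)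
    (x y : Fin r → E) (c : Fin m → E) :
    Bg T x y (fun i => ∑ a, c a * pe E p a i) = ∑ a, c a * Bg T x y (pe E p a) := by
  rw [Bg_sum3 hT]
  exact Finset.sum_congr rfl fun a _ => Bg_smul3 T _ _ _ _

theorem Bg_vv {T : Fin r → Fin r → Fin r → ℂ} (hT : SymG T) (p : Fin m → Fin r → ℂ)
    (x : Fin r → E) (c : Fin m → E) :
    Bg T x (fun i => ∑ a, c a * pe E p a i) (fun i => ∑ a, c a * pe E p a i) =
      ∑ a, ∑ b, c a * c b * Bg T x (pe E p a) (pe E p b) := by
  rw [Bg_v hT]
  simp only [Bg_swap23 hT x (fun i => ∑ a, c a * pe E p a i), Bg_v hT, Finset.mul_sum]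
  refine Finset.sum_congr rfl fun a _ => Finset.sum_congr rfl fun b _ => ?_
  ring

theorem key {T : Fin r → Fin r → Fin r → ℂ} (hT : SymG T) (p : Fin m → Fin r → ℂ)
    (hp : ∀ a b c, Bg T (p a) (p b) (p c) = 0) (x : Fin r → E) (u : E) (c : Fin m → E) :
    Bg T (fun i => u * x i + ∑ a, c a * pe E p a i) (fun i => u * x i + ∑ a, c a * pe E p a i)
      (fun i => u * x i + ∑ a, c a * pe E p a i) = u * SS T p x u c := by
  have h0 : Bg T (fun i => ∑ a, c a * pe E p a i) (fun i => ∑ a, c a * pe E p a i)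
      (fun i => ∑ a, c a * pe E p a i) = 0 := by
    have h1 := Bg_comp (R := E) hT p c c c
    have h2 : comp T p = fun _ _ _ => 0 := by
      funext a b c
      exact hp a b c
    rw [h2] at h1
    unfold pe
    rw [← h1]
    unfold Bg
    simp
  set v : Fin r → E := fun i => ∑ a, c a * pe E p a i with hv
  have h3 : (fun i => u * x i + ∑ a, c a * pe E p a i) = fun i => u * x i + v i := rfl
  rw [h3]
  simp only [Bg_add1, Bg_add2, Bg_add3, Bg_smul1, Bg_smul2, Bg_smul3]
  rw [Bg_swap12 hT v x v, Bg_swap12 hT v x x, Bg_swap23 hT x v x, Bg_swap23 hT v v x,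
    Bg_swap12 hT v x v, h0]
  have h4 : Bg T x x v = ∑ b, c b * Bg T x x (pe E p b) := Bg_v hT p x x c
  have h5 : Bg T x v v = ∑ a, ∑ b, c a * c b * Bg T x (pe E p a) (pe E p b) := Bg_vv hT p x c
  unfold SS
  rw [← h4, ← h5]
  ring

/-- the matrix of the residual quadric -/
def Qm (T : Fin r → Fin r → Fin r → ℂ) (p : Fin m → Fin r → ℂ) (x : Fin r → E) :
    Matrix (Fin (m + 1)) (Fin (m + 1)) E := fun i j =>
  Fin.cases (Fin.cases (Bg T x x x) (fun b => 3 * Bg T x x (pe E p b)) j)
    (fun a => Fin.cases 0 (fun b => 3 * Bg T x (pe E p a) (pe E p b)) j) i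

theorem sumQ (T : Fin r → Fin r → Fin r → ℂ) (p : Fin m → Fin r → ℂ) (x : Fin r → E)
    (u : Fin (m + 1) → E) :
    ∑ i, ∑ j, Qm T p x i j * u i * u j = SS T p x (u 0) (fun a => u a.succ) := by
  simp only [Fin.sum_univ_succ, Qm, Fin.cases_zero, Fin.cases_succ, SS, zero_mul, zero_add,
    Finset.mul_sum]
  congr 1
  · congr 1
    · ring
    · exact Finset.sum_congr rfl fun b _ => by ring
  · exact Finset.sum_congr rfl fun a _ => Finset.sum_congr rfl fun b _ => by ring

theorem map_pe {E' : Type} [CommRing E'] [Algebra ℂ E'] (φ : E →ₐ[ℂ] E') (p : Fin m → Fin r → ℂ)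
    (a : Fin m) : (fun i => φ (pe E p a i)) = pe E' p a := by
  funext i
  exact φ.commutes _

theorem map_SS {E' : Type} [CommRing E'] [Algebra ℂ E'] (φ : E →ₐ[ℂ] E')
    (T : Fin r → Fin r → Fin r → ℂ) (p : Fin m → Fin r → ℂ) (x : Fin r → E) (u : E)
    (c : Fin m → E) :
    φ (SS T p x u c) = SS T p (fun i => φ (x i)) (φ u) (fun a => φ (c a)) := by
  unfold SS
  simp only [map_add, map_mul, map_pow, map_sum, map_Bg, map_pe, map_ofNat]

theorem map_Qm {E' : Type} [CommRing E'] [Algebra ℂ E'] (φ : E →ₐ[ℂ] E')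
    (T : Fin r → Fin r → Fin r → ℂ) (p : Fin m → Fin r → ℂ) (x : Fin r → E) (i j : Fin (m + 1)) :
    φ (Qm T p x i j) = Qm T p (fun i => φ (x i)) i j := by
  refine Fin.cases ?_ (fun a => ?_) i <;> refine Fin.cases ?_ (fun b => ?_) j <;>
    simp only [Qm, Fin.cases_zero, Fin.cases_succ, map_mul, map_Bg, map_pe, map_ofNat, map_zero]

theorem SS_scale (T : Fin r → Fin r → Fin r → ℂ) (p : Fin m → Fin r → ℂ) (x : Fin r → E)
    (D t u : E) (c : Fin m → E) :
    SS T p (fun i => t * x i) (D * u) (fun a => D * c a * t) = D ^ 2 * t ^ 3 * SS T p x u c := by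
  unfold SS
  simp only [Bg_smul1, Bg_smul2, Bg_smul3, mul_add, Finset.mul_sum]
  congr 1
  · congr 1
    · ring
    · exact Finset.sum_congr rfl fun b _ => by ring
  · exact Finset.sum_congr rfl fun a _ => Finset.sum_congr rfl fun b _ => by ring

theorem Bg_hom (T : Fin r → Fin r → Fin r → ℂ) {x y z : Fin r → MvPolynomial (Fin r) ℂ}
    {dx dy dz : ℕ} (hx : ∀ i, (x i).IsHomogeneous dx) (hy : ∀ i, (y i).IsHomogeneous dy)
    (hz : ∀ i, (z i).IsHomogeneous dz) : (Bg T x y z).IsHomogeneous (dx + dy + dz) := by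
  unfold Bg
  refine IsHomogeneous.sum _ _ _ fun i _ => IsHomogeneous.sum _ _ _ fun j _ =>
    IsHomogeneous.sum _ _ _ fun k _ => ?_
  have h1 := (((isHomogeneous_C (Fin r) (T i j k)).mul (hx i)).mul (hy j)).mul (hz k)
  rw [zero_add] at h1
  exact h1

theorem pe_hom (p : Fin m → Fin r → ℂ) (a : Fin m) (i : Fin r) :
    (pe (MvPolynomial (Fin r) ℂ) p a i).IsHomogeneous 0 := isHomogeneous_C _ _

theorem SS_hom (T : Fin r → Fin r → Fin r → ℂ) (p : Fin m → Fin r → ℂ)
    {W : MvPolynomial (Fin r) ℂ} {V : Fin m → MvPolynomial (Fin r) ℂ} {e : ℕ}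
    (hW : W.IsHomogeneous e) (hV : ∀ a, (V a).IsHomogeneous (e + 1)) :
    (SS T p X W V).IsHomogeneous (2 * e + 3) := by
  have hX : ∀ i : Fin r, (X i : MvPolynomial (Fin r) ℂ).IsHomogeneous 1 := fun i =>
    isHomogeneous_X _ i
  have h3 : (3 : MvPolynomial (Fin r) ℂ) = C 3 := (map_ofNat C 3).symm
  have hC : (3 : MvPolynomial (Fin r) ℂ).IsHomogeneous 0 := by
    rw [h3]
    exact isHomogeneous_C _ _
  unfold SS
  refine (IsHomogeneous.add ?_ ?_).add ?_
  · have h1 := (hW.pow 2).mul (Bg_hom T hX hX hX)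
    rwa [show e * 2 + (1 + 1 + 1) = 2 * e + 3 by ring] at h1
  · have h1 : (∑ b, V b * Bg T X X (pe (MvPolynomial (Fin r) ℂ) p b)).IsHomogeneous (e + 3) := by
      refine IsHomogeneous.sum _ _ _ fun b _ => ?_
      have h2 := (hV b).mul (Bg_hom T hX hX (pe_hom p b))
      rwa [show e + 1 + (1 + 1 + 0) = e + 3 by ring] at h2
    have h2 := (hC.mul hW).mul h1
    rwa [show 0 + e + (e + 3) = 2 * e + 3 by ring] at h2
  · have h1 : (∑ a, ∑ b, V a * V b * Bg T X (pe (MvPolynomial (Fin r) ℂ) p a)
        (pe (MvPolynomial (Fin r) ℂ) p b)).IsHomogeneous (2 * e + 3) := by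
      refine IsHomogeneous.sum _ _ _ fun a _ => IsHomogeneous.sum _ _ _ fun b _ => ?_
      have h2 := ((hV a).mul (hV b)).mul (Bg_hom T hX (pe_hom p a) (pe_hom p b))
      rwa [show e + 1 + (e + 1) + (1 + 0 + 0) = 2 * e + 3 by ring] at h2
    have h2 := hC.mul h1
    rwa [zero_add] at h2

end quad

/-- independence over a larger field -/
theorem indep_ext {r m : ℕ} {p : Fin m → Fin r → ℂ} (hp : LinearIndependent ℂ p) {N : Type}
    [Field N] [Algebra ℂ N] (w : Fin m → N)
    (hw : ∀ i, ∑ a, w a * algebraMap ℂ N (p a i) = 0) : w = 0 := by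
  classical
  have hinj : LinearMap.ker (Fintype.linearCombination ℂ p) = ⊥ := by
    rw [LinearMap.ker_eq_bot']
    intro c hc
    rw [Fintype.linearCombination_apply] at hc
    exact funext fun i => Fintype.linearIndependent_iff.1 hp c hc i
  obtain ⟨L, hL⟩ := LinearMap.exists_leftInverse_of_injective _ hinj
  have h1 : ∀ a b : Fin m, ∑ i, p a i * L (Pi.single i 1) b = if a = b then 1 else 0 := by
    intro a b
    have h2 : L (p a) = Pi.single a 1 := by
      have h3 := congrArg (fun f => f (Pi.single a 1)) hL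
      simp only [LinearMap.comp_apply, LinearMap.id_apply, Fintype.linearCombination_apply_single,
        one_smul] at h3
      exact h3
    have h4 : p a = ∑ i, p a i • (Pi.single i 1 : Fin r → ℂ) := by
      funext j
      rw [Finset.sum_apply]
      simp [Pi.single_apply]
    have h5 := congrFun h2 b
    rw [h4, map_sum, Finset.sum_apply] at h5
    simp only [map_smul, Pi.smul_apply, smul_eq_mul] at h5
    rw [h5, Pi.single_apply]
    simp [eq_comm]
  funext b
  have h2 : ∑ i, (∑ a, w a * algebraMap ℂ N (p a i)) * algebraMap ℂ N (L (Pi.single i 1) b) =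
      w b := by
    have h3 : ∀ i, (∑ a, w a * algebraMap ℂ N (p a i)) * algebraMap ℂ N (L (Pi.single i 1) b) =
        ∑ a, w a * algebraMap ℂ N (p a i * L (Pi.single i 1) b) := by
      intro i
      rw [Finset.sum_mul]
      exact Finset.sum_congr rfl fun a _ => by rw [map_mul, mul_assoc]
    simp only [h3]
    rw [Finset.sum_comm]
    have h4 : ∀ a, ∑ i, w a * algebraMap ℂ N (p a i * L (Pi.single i 1) b) =
        w a * algebraMap ℂ N (if a = b then 1 else 0) := by
      intro a
      rw [← Finset.mul_sum, ← map_sum, h1]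
    simp only [h4]
    rw [Finset.sum_eq_single b]
    · simp
    · intro a _ hab
      simp [hab]
    · simp
  rw [← h2]
  simp [hw]

/-- job SEC -/
theorem sec (h : S_LAM) : S_SEC := by
  classical
  intro r m F hF hsm p hp hp0 N _ _ z hz hodd c hc
  obtain ⟨T, hT, hFT⟩ := exists_tri F hF
  by_cases hz0 : ∃ j, z j ≠ 0
  swap
  · push Not at hz0
    have h1 : F = 0 := by
      refine hz 3 F hF ?_
      have h2 : z = fun i => (0 : N) * z i := by
        funext i
        rw [zero_mul, hz0]
      rw [h2, aeval_smul_form hF]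
      simp
    exact ⟨fun _ => 0, 1, one_ne_zero, by rw [h1, map_zero]⟩
  obtain ⟨j0, hj0⟩ := hz0
  have hfd : FiniteDimensional (ratioField z) N := FiniteDimensional.of_finrank_pos hodd.pos
  have hch : CharZero (ratioField z) :=
    charZero_of_injective_algebraMap (algebraMap ℂ _).injective
  -- the trilinear form vanishes on the subspace
  have hpp : ∀ a b c, Bg T (p a) (p b) (p c) = 0 := by
    have h1 : ∀ x : Fin m → ℂ, Bg (comp T p) x x x = 0 := by
      intro x
      rw [Bg_comp hT]
      have h2 := hp0 x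
      rw [hFT, ← aeval_eq_eval, aeval_frmG] at h2
      have h3 : (∑ a, x a • p a) = fun i => ∑ a, x a * algebraMap ℂ ℂ (p a i) := by
        funext i
        rw [Finset.sum_apply]
        rfl
      rw [h3] at h2
      exact h2
    intro a b c
    have h2 := polar (comp_sym hT p) h1 (fun i => if i = a then (1 : ℂ) else 0)
      (fun i => if i = b then (1 : ℂ) else 0) (fun i => if i = c then (1 : ℂ) else 0)
    rw [← T_eq] at h2
    exact h2
  -- the affine point
  have hmem : ∀ i, z i / z j0 ∈ ratioField z := fun i => subset_adjoin ℂ _ ⟨i, j0, rfl⟩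
  let x : Fin r → ratioField z := fun i => ⟨z i / z j0, hmem i⟩
  let c' : Fin m → N := fun a => c a / z j0
  have hN : SS T p (fun i => z i / z j0) 1 c' = 0 := by
    have h1 := (aeval_div (fun i => z i + ∑ a, c a * algebraMap ℂ N (p a i)) hj0 hF).2 hc
    have h2 : (fun i => (z i + ∑ a, c a * algebraMap ℂ N (p a i)) / z j0) =
        fun i => 1 * (z i / z j0) + ∑ a, c' a * pe N p a i := by
      funext i
      rw [one_mul, add_div, Finset.sum_div]
      congr 1
      exact Finset.sum_congr rfl fun a _ => by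
        simp only [c', pe]
        ring
    rw [h2, hFT, aeval_frmG, key hT p hpp, one_mul] at h1
    exact h1
  -- Springer's theorem
  obtain ⟨α, hα⟩ := Field.exists_primitive_element (ratioField z) N
  have hint : IsIntegral (ratioField z) α := Algebra.IsIntegral.isIntegral α
  have hdeg : (minpoly (ratioField z) α).natDegree = finrank (ratioField z) N :=
    (Field.primitive_element_iff_minpoly_natDegree_eq (ratioField z) α).1 hα
  have hpoly : ∀ y : N, ∃ P : Polynomial (ratioField z), Polynomial.aeval α P = y := by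
    intro y
    have h1 : y ∈ (ratioField z)⟮α⟯ := by
      rw [hα]
      trivial
    have h2 : y ∈ ((ratioField z)⟮α⟯).toSubalgebra := h1
    rw [IntermediateField.adjoin_simple_toSubalgebra_of_isAlgebraic hint.isAlgebraic,
      Algebra.adjoin_singleton_eq_range_aeval] at h2
    exact h2
  choose P hP using fun i => hpoly ((Fin.cons 1 c' : Fin (m + 1) → N) i)
  obtain ⟨w, hw0, hw⟩ := Pool.Agent.Helper273.Sup.springer (Qm T p x) α hint
    (by rw [hdeg]; exact hodd) P ⟨0, by rw [hP]; simp⟩ (by
      have h1 := sumQ T p (fun i => z i / z j0) (Fin.cons 1 c' : Fin (m + 1) → N)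
      simp only [Fin.cons_zero, Fin.cons_succ] at h1
      rw [hN] at h1
      rw [← h1]
      refine Finset.sum_congr rfl fun i _ => Finset.sum_congr rfl fun j _ => ?_
      rw [hP, hP]
      congr 2
      exact map_Qm (ratioField z).val T p x i j)
  rw [sumQ] at hw
  -- the same over `N`
  have hwN : SS T p (fun i => z i / z j0) (w 0 : N) (fun a => (w a.succ : N)) = 0 := by
    have h1 := congrArg (ratioField z).val hw
    rw [map_SS, map_zero] at h1
    exact h1
  -- common denominator
  choose e A B hA hB hB0 hAB using fun i : Fin (m + 1) =>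
    Pool.Agent.Y270.C3.ratio_form hj0 (w i).2
  set E : ℕ := ∑ l, e l with hE
  set H : Fin (m + 1) → MvPolynomial (Fin r) ℂ := fun j => A j * ∏ l ∈ Finset.univ.erase j, B l
    with hH
  set D : N := ∏ l, aeval z (B l) with hD
  have hD0 : D ≠ 0 := Finset.prod_ne_zero_iff.2 fun l _ => hB0 l
  have hHh : ∀ j, (H j).IsHomogeneous E := by
    intro j
    have h1 := (hA j).mul (IsHomogeneous.prod (Finset.univ.erase j) B e fun l _ => hB l)
    rwa [Finset.add_sum_erase Finset.univ e (Finset.mem_univ j)] at h1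
  have hHv : ∀ j, aeval z (H j) = D * (w j : N) := by
    intro j
    have h1 : aeval z (H j) = aeval z (A j) * ∏ l ∈ Finset.univ.erase j, aeval z (B l) := by
      simp only [hH, map_mul, map_prod]
    have h2 : D = aeval z (B j) * ∏ l ∈ Finset.univ.erase j, aeval z (B l) :=
      (Finset.mul_prod_erase Finset.univ (fun l => aeval z (B l)) (Finset.mem_univ j)).symm
    rw [h1, h2, ← hAB j]
    ring
  have hSS : SS T p X (H 0) (fun a => H a.succ * X j0) = 0 := by
    refine hz (2 * E + 3) _ (SS_hom T p (hHh 0) fun a =>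
      (hHh a.succ).mul (isHomogeneous_X _ j0)) ?_
    rw [map_SS]
    have h1 : (fun i => aeval z (X i : MvPolynomial (Fin r) ℂ)) =
        fun i => z j0 * (z i / z j0) := by
      funext i
      rw [aeval_X, mul_div_cancel₀ _ hj0]
    have h2 : (fun a : Fin m => aeval z (H a.succ * X j0)) =
        fun a => D * (w a.succ : N) * z j0 := by
      funext a
      rw [map_mul, aeval_X, hHv]
    rw [h1, h2, hHv, SS_scale, hwN, mul_zero]
  by_cases hW : H 0 = 0
  · -- impossible: a point of the polar quadric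
    exfalso
    have hw00 : (w 0 : N) = 0 := by
      have h1 := hHv 0
      rw [hW, map_zero] at h1
      exact (mul_eq_zero.1 h1.symm).resolve_left hD0
    let y : Fin r → N := fun i => ∑ a, (w a.succ : N) * pe N p a i
    have hy0 : y ≠ 0 := by
      intro hy
      apply hw0
      have h1 := indep_ext hp (fun a => (w a.succ : N)) fun i => congrFun hy i
      funext i
      refine Fin.cases ?_ (fun a => ?_) i
      · exact Subtype.ext hw00
      · exact Subtype.ext (congrFun h1 a)
    have hyz : ∑ i, z i * aeval y (pderiv i F) = 0 := by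
      have h1 : ∀ i, z i * aeval y (pderiv i F) =
          3 * (z i * Bg T (fun k => if k = i then 1 else 0) y y) := by
        intro i
        rw [hFT, pderiv_frmG hT]
        ring
      rw [Finset.sum_congr rfl fun i _ => h1 i, ← Finset.mul_sum]
      have h2 : ∑ i, z i * Bg T (fun k => if k = i then (1 : N) else 0) y y = Bg T z y y := by
        have h3 : z = fun k => ∑ i, z i * (if k = i then (1 : N) else 0) := by
          funext k
          simp
        conv_rhs => rw [h3]
        rw [Bg_sum1]
        exact Finset.sum_congr rfl fun i _ => (Bg_smul1 T (z i) _ y y).symm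
      rw [h2]
      have h4 : Bg T (fun i => z i / z j0) y y =
          ∑ a, ∑ b, (w a.succ : N) * (w b.succ : N) *
            Bg T (fun i => z i / z j0) (pe N p a) (pe N p b) :=
        Bg_vv hT p (fun i => z i / z j0) (fun a => (w a.succ : N))
      have h5 : 3 * Bg T (fun i => z i / z j0) y y = 0 := by
        have h6 := hwN
        unfold SS at h6
        rw [hw00, ← h4] at h6
        linear_combination h6
      have h7 : z = fun i => z j0 * (z i / z j0) := by
        funext i
        rw [mul_div_cancel₀ _ hj0]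
      have h8 : Bg T z y y = z j0 * Bg T (fun i => z i / z j0) y y := by
        conv_lhs => rw [h7]
        rw [Bg_smul1]
      rw [h8]
      linear_combination z j0 * h5
    have h1 := h r 3 F hF (by norm_num) hsm N z hz y hy0 hyz
    have h2 : 2 ∣ finrank (ratioField z) N := h1
    exact (Nat.not_even_iff_odd.2 hodd) (even_iff_two_dvd.2 h2)
  · refine ⟨fun a => H a.succ * X j0, H 0, hW, ?_⟩
    have h1 := key hT p hpp (X : Fin r → MvPolynomial (Fin r) ℂ) (H 0)
      (fun a => H a.succ * X j0)
    rw [hSS, mul_zero] at h1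
    rw [hFT, aeval_frmG]
    exact h1

end

end Pool.Agent.Y942.LI
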